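import Pool.Agent.helper67NX.Sizes

/-!
# The `n`-term abc conjecture fails for every large `n`: how far `max |x_i|` exceeds `R ^ (2n - 4)`

The tuples are the values at `(u, v) = (a, b)` of identities between `n` forms
`κ u ^ i v ^ j (u + v) ^ k (u - v) ^ l` of degree `4 (n - 2)`, where `a + b = c` runs through abc triples
with `c > rad (a b c) exp (6.84 √(log c) / log log c)`.
-/

set_option autoImplicit false

namespace Pool.Agent.Results.MP_7bfa24_nt.SubexponentialExcess

open Pool.Agent.KS6_67.NC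

/-- Admissible `n`-tuples: sum zero, no common prime factor, no vanishing proper subsum. -/
def Admissible {n : ℕ} (x : Fin n → ℤ) : Prop :=
  ∑ i, x i = 0 ∧ Finset.univ.gcd x = 1 ∧
    ∀ I : Finset (Fin n), I.Nonempty → I ≠ Finset.univ → ∑ i ∈ I, x i ≠ 0

/-- The radical of the product: the product of the distinct primes dividing `x₁ ⋯ xₙ`. -/
def R {n : ℕ} (x : Fin n → ℤ) : ℕ := ∏ p ∈ (∏ i, x i).natAbs.primeFactors, p

/-- `max |x_i|` -/
def size {n : ℕ} (x : Fin n → ℤ) : ℕ := Finset.univ.sup fun i => (x i).natAbs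

/-- Let `n ≥ 34` or `n = 10, 11, 12, 18, …, 22, 26, …, 32`.
(1) For every `K < 6.84 √(n - 2)` there are admissible `n`-tuples with `M = max |x_i|` as large as one
likes and `M > R (x_1 ⋯ x_n) ^ (2n - 4) exp (K √(log M) / log log M)`.
(2) In particular the generalized abc conjecture fails for `n` summands, for every `ε ≤ 1`: the ratio
`max |x_i| / R (x_1 ⋯ x_n) ^ (2n - 5 + ε)` is unbounded over the admissible `n`-tuples. -/
theorem result (n : ℕ) (hn : 34 ≤ n ∨ n ∈ ({10, 11, 12, 18, 19, 20, 21, 22, 26, 27, 28, 29, 30, 31,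
    32} : Finset ℕ)) :
    (∀ K : ℝ, K < 6.84 * √((n : ℝ) - 2) → ∀ X : ℝ, ∃ x : Fin n → ℤ, Admissible x ∧ X < size x ∧
      (R x : ℝ) ^ (2 * n - 4) *
        Real.exp (K * √(Real.log (size x)) / Real.log (Real.log (size x))) < size x) ∧
    (∀ ε : ℝ, ε ≤ 1 → ∀ C : ℝ, ∃ x : Fin n → ℤ, Admissible x ∧
      ∃ i, C * (R x : ℝ) ^ (2 * (n : ℝ) - 5 + ε) < ((|x i| : ℤ) : ℝ)) := by
  obtain ⟨m, rfl⟩ : ∃ m, n = m + 2 := by
    refine ⟨n - 2, ?_⟩
    rcases hn with hn | hn
    · omega
    · simp only [Finset.mem_insert, Finset.mem_singleton] at hn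
      omega
  have hm : 32 ≤ m ∨ m ∈ ({8, 9, 10, 16, 17, 18, 19, 20, 24, 25, 26, 27, 28, 29,
      30} : Finset ℕ) := by
    rcases hn with hn | hn
    · left; omega
    · right
      simp only [Finset.mem_insert, Finset.mem_singleton] at hn ⊢
      omega
  obtain ⟨a, b, c, habc, hmabc⟩ := Pool.Agent.H67NX.repr m hm
  obtain ⟨P⟩ := Pool.Agent.H67NX.exists_piece a b c habc
  rw [← hmabc] at P
  refine ⟨?_, ?_⟩
  · intro K hK X
    have hK' : K < 6.84 * √(m : ℝ) := by
      have : (((m + 2 : ℕ) : ℝ) - 2) = (m : ℝ) := by push_cast; ring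
      rwa [this] at hK
    obtain ⟨y, hy, h1, h2⟩ := Pool.Agent.H67NX.excess (by omega) P K hK' X
    refine ⟨y, hy, h1, ?_⟩
    have e : 2 * (m + 2) - 4 = 2 * m := by omega
    rw [e]
    exact h2
  · intro ε hε C
    obtain ⟨y, h1, h2, h3, i, h4⟩ := P.fails (by omega) |C|
    refine ⟨y, ⟨h1, h2, h3⟩, i, ?_⟩
    have hR : R y = rad y := by
      unfold R rad
      rfl
    rw [hR]
    have hpos : 1 ≤ rad y := by
      unfold rad
      apply Nat.one_le_iff_ne_zero.mpr
      rw [Finset.prod_ne_zero_iff]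
      intro p hp
      exact (Nat.prime_of_mem_primeFactors hp).ne_zero
    have h5 : (1 : ℝ) ≤ (rad y : ℝ) := by exact_mod_cast hpos
    calc C * (rad y : ℝ) ^ (2 * ((m + 2 : ℕ) : ℝ) - 5 + ε)
        ≤ |C| * (rad y : ℝ) ^ (2 * ((m + 2 : ℕ) : ℝ) - 5 + ε) :=
          mul_le_mul_of_nonneg_right (le_abs_self C) (Real.rpow_nonneg (by linarith) _)
      _ ≤ |C| * (rad y : ℝ) ^ ((2 * m : ℕ) : ℝ) := by
          apply mul_le_mul_of_nonneg_left _ (abs_nonneg _)
          apply Real.rpow_le_rpow_of_exponent_le h5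
          push_cast
          linarith
      _ = |C| * (rad y : ℝ) ^ (2 * m) := by rw [Real.rpow_natCast]
      _ < _ := h4

end Pool.Agent.Results.MP_7bfa24_nt.SubexponentialExcess
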